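import Pool.Agent.L7h50.UP.Up0
import Pool.Agent.L7h19.FT.Stm
import Pool.Agent.H474R2.PG.HomsLower

/-! # S_UP2, S_UP02 (project FT of helper19): the two-sided versions of `StUp`, `StUp0` -/

set_option autoImplicit false
set_option linter.unusedSectionVars false

open NumberField Finset Polynomial

namespace Pool.Agent.L7h50.UP

open Pool.Agent.W262.RK Pool.Agent.W655.RK Pool.Agent.L7h19.RP
open Pool.Agent.H474R2.PG (rho PR)
open Pool.Agent.L7h78.RP (hK hK_nonneg hK_le ch ch_abs PS_eq sum_PS_le logs Md upper mertens_up bb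
  bb_abs)

/-- the lower bound of the sums of the twisted `b` over the primes -/
lemma bb_sum_low (f κ : ℤ[X]) (hf : Irreducible f) (hd : 0 < f.natDegree)
    (hfκ : ¬ f ∣ κ) {ε : ℝ} (hε : 0 < ε) : ∃ (z₀ : ℕ), 2 ≤ z₀ ∧
    ∀ z : ℕ, z₀ ≤ z → ∃ C : ℝ, ∀ (t : Bool) (r y : ℕ), Md z r → z < y →
      -(ε * Real.log r) - C ≤ ∑ p ∈ PS z y, bb f κ p * ch t r p / (p : ℝ) := by
  classical
  obtain ⟨K, iF, iN, z₁, hKr, hcase⟩ := Pool.Agent.L7h80.RP.stQuad f κ hf hd hfκ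
  have hll : ∀ A : ℝ, 0 ≤ A → ∃ C : ℝ, ∀ z r : ℕ, 2 ≤ z → Md z r →
      A * Real.log (Real.log r) ≤ ε / 2 * Real.log r + C := by
    intro A hA
    refine ⟨-(A * Real.log (ε / (2 * (A + 1)))), fun z r hz hr => ?_⟩
    obtain ⟨hl1, -⟩ := logs (hr.three hz)
    have hδ : 0 < ε / (2 * (A + 1)) := by positivity
    have h1 := log_eps hδ (by linarith : 0 < Real.log r)
    have h2 := mul_le_mul_of_nonneg_left h1 hA
    have h3 : A * (ε / (2 * (A + 1)) * Real.log r) ≤ ε / 2 * Real.log r := by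
      rw [← mul_assoc]
      refine mul_le_mul_of_nonneg_right ?_ (by linarith)
      rw [mul_div_assoc', div_le_div_iff₀ (by positivity) (by norm_num)]
      nlinarith
    linarith
  rcases hcase with hsq | ⟨K', iF', iN', hK'⟩
  · -- the square case
    obtain ⟨z₂, hz₂, h⟩ := lower_eps K hε
    refine ⟨max z₁ z₂, hz₂.trans (le_max_right _ _), fun z hz => ?_⟩
    obtain ⟨C, hC⟩ := h z ((le_max_right _ _).trans hz)
    refine ⟨C, fun t r y hr hzy => ?_⟩
    have h1 := hC t r y hr hzy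
    have h2 : ∑ p ∈ PS z y, bb f κ p * ch t r p / (p : ℝ) =
        ∑ p ∈ PS z y, hK K p * ch t r p / (p : ℝ) := by
      refine Finset.sum_congr rfl fun p hp => ?_
      have hpp := PS_prime hp
      have hzp : z₁ < p := lt_of_le_of_lt ((le_max_left _ _).trans hz) (PS_lt hp)
      have h3 : bb f κ p = hK K p := by
        unfold bb hK
        rw [hKr p hpp hzp]
        unfold rho
        rw [Finset.sum_congr rfl (g := fun _ => (1 : ℝ))]
        · simp
        · intro ν hν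
          rw [mem_filter] at hν
          unfold Jr
          rw [hsq p hpp hzp ν hν.2, Int.cast_one]
      rw [h3]
    rw [h2]
    exact h1
  · -- the quadratic extension
    obtain ⟨A, z₂, hA, hz₂, h⟩ := upper K
    obtain ⟨C0, hC0⟩ := hll A hA
    obtain ⟨z₃, hz₃, hlow⟩ := lower_eps K' (half_pos hε)
    refine ⟨max z₁ (max z₂ z₃), hz₂.trans ((le_max_left _ _).trans (le_max_right _ _)),
      fun z hz => ?_⟩
    have hz1 : z₁ ≤ z := (le_max_left _ _).trans hz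
    have hz2 : z₂ ≤ z := ((le_max_left _ _).trans (le_max_right _ _)).trans hz
    have hz3 : z₃ ≤ z := ((le_max_right _ _).trans (le_max_right _ _)).trans hz
    obtain ⟨C1, hC1⟩ := h z hz2
    obtain ⟨C2, hC2⟩ := hlow z hz3
    refine ⟨C0 + C1 + C2, fun t r y hr hzy => ?_⟩
    have h1 := hC1 t r y hr hzy
    have h2 := hC2 t r y hr hzy
    have h4 := hC0 z r (hz₂.trans hz2) hr
    have h3 : ∑ p ∈ PS z y, bb f κ p * ch t r p / (p : ℝ) =
        ∑ p ∈ PS z y, hK K' p * ch t r p / (p : ℝ) -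
          ∑ p ∈ PS z y, hK K p * ch t r p / (p : ℝ) := by
      rw [← Finset.sum_sub_distrib]
      refine Finset.sum_congr rfl fun p hp => ?_
      have hpp := PS_prime hp
      have hzp : z₁ < p := lt_of_le_of_lt hz1 (PS_lt hp)
      have h4 : bb f κ p = hK K' p - hK K p := by
        have h5 := hK' p hpp hzp
        have h6 : (Nat.card (𝓞 K' →+* ZMod p) : ℝ) = ((Nat.card (𝓞 K' →+* ZMod p) : ℤ) : ℝ) := by
          push_cast
          rfl
        unfold hK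
        rw [h6, h5, hKr p hpp hzp]
        unfold bb rho Jr
        push_cast
        rw [Finset.sum_add_distrib]
        simp
      rw [h4]
      ring
    rw [h3]
    linarith

/-- the other inequality of `bw_le` -/
lemma bw_ge {f κ : ℤ[X]} {w : ℝ} {c n z y : ℕ} (hw : 0 < w) (hw2 : w ≤ 1 / 2)
    (hz : 2 * c + 2 ≤ z) (hb : ∀ p ∈ PS z y, |bb f κ p| ≤ n) {u : ℕ → ℝ}
    (hu : ∀ p, |u p| ≤ 1) {M : ℝ} (hM : ∑ p ∈ PS z y, 1 / (p : ℝ) ^ 2 ≤ M) :
    w * ∑ p ∈ PS z y, bb f κ p * u p / (p : ℝ) - c * n * M ≤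
      ∑ p ∈ PS z y, bw f κ w c p * u p := by
  have h := bw_le (f := f) (κ := κ) (c := c) (n := n) (z := z) (y := y) (u := fun p => -u p) hw hw2
    hz hb (fun p => by rw [abs_neg]; exact hu p) hM
  have e1 : ∑ p ∈ PS z y, bw f κ w c p * -u p = -∑ p ∈ PS z y, bw f κ w c p * u p := by
    rw [← Finset.sum_neg_distrib]
    exact Finset.sum_congr rfl fun p _ => by ring
  have e2 : ∑ p ∈ PS z y, bb f κ p * -u p / (p : ℝ) =
      -∑ p ∈ PS z y, bb f κ p * u p / (p : ℝ) := by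
    rw [← Finset.sum_neg_distrib]
    exact Finset.sum_congr rfl fun p _ => by ring
  rw [e1, e2] at h
  linarith

lemma bw_one (f κ : ℤ[X]) (c p : ℕ) : bw f κ 1 c p = 2 * bw f κ (1 / 2) c p := by
  unfold bw
  ring

/-- **S_UP2** -/
theorem s_UP2 : Pool.Agent.L7h19.FT.S_UP2 := by
  intro f κ ε c hf hd hfκ hε
  obtain ⟨M, hM, hsq⟩ := sum_inv_sq
  obtain ⟨n, z₀, hz₀, hbn, hbb⟩ := bb_sum_eps f κ hf hd hfκ hε
  obtain ⟨z₁, hz₁, hbl⟩ := bb_sum_low f κ hf hd hfκ hε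
  refine ⟨max (2 * c + 2) (max z₀ z₁), fun z hz => ?_⟩
  have hzc : 2 * c + 2 ≤ z := (le_max_left _ _).trans hz
  have hz0 : z₀ ≤ z := ((le_max_left _ _).trans (le_max_right _ _)).trans hz
  have hz1 : z₁ ≤ z := ((le_max_right _ _).trans (le_max_right _ _)).trans hz
  have hz2 : 2 ≤ z := by omega
  obtain ⟨C, hC⟩ := hbb z hz0
  obtain ⟨C', hC'⟩ := hbl z hz1
  refine ⟨max C C' + 2 * (c * n * M), fun y r t hy hr hrs hrp => ?_⟩
  have hMd : Md z r := ⟨hr, hrs, hrp⟩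
  have hbn' : ∀ p ∈ PS z y, |bb f κ p| ≤ n :=
    fun p hp => hbn p (PS_prime hp) (lt_of_le_of_lt hz0 (PS_lt hp))
  have h1 := hC t r y hMd hy
  have h1' := hC' t r y hMd hy
  have h2 := bw_le (f := f) (κ := κ) (c := c) (n := n) (z := z) (y := y) (u := ch t r)
    (by norm_num : (0 : ℝ) < 1 / 2) le_rfl hzc hbn' (ch_abs t r) (hsq _)
  have h2' := bw_ge (f := f) (κ := κ) (c := c) (n := n) (z := z) (y := y) (u := ch t r)
    (by norm_num : (0 : ℝ) < 1 / 2) le_rfl hzc hbn' (ch_abs t r) (hsq _)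
  have h5 : ∑ p ∈ PS z y, bw f κ 1 c p * (Jr p r * x4 t p) =
      2 * ∑ p ∈ PS z y, bw f κ (1 / 2) c p * ch t r p := by
    rw [Finset.mul_sum]
    refine Finset.sum_congr rfl fun p _ => ?_
    rw [bw_one]
    unfold ch
    ring
  rw [h5]
  have hmc := le_max_left C C'
  have hmc' := le_max_right C C'
  rw [abs_le]
  constructor <;> linarith

/-- Mertens, lower bound -/
lemma mertens_low (K : Type) [Field K] [NumberField K] (z : ℕ) : ∃ C : ℝ, ∀ y : ℕ, z < y → 3 ≤ y →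
    Real.log (Real.log y) - C ≤ ∑ p ∈ PS z y, hK K p / (p : ℝ) := by
  obtain ⟨C, hC⟩ := Pool.Agent.H474R2.PG.homs_lower K
  refine ⟨C + ∑ p ∈ PR (z : ℝ), hK K p / (p : ℝ), fun y hzy hy => ?_⟩
  have h1 : Real.log (Real.log y) - C ≤ ∑ p ∈ PR (y : ℝ), hK K p / (p : ℝ) :=
    hC y (by exact_mod_cast hy)
  have h2 : ∑ p ∈ PR (y : ℝ), hK K p / (p : ℝ) ≤
      ∑ p ∈ PR (z : ℝ), hK K p / (p : ℝ) + ∑ p ∈ PS z y, hK K p / (p : ℝ) := by
    rw [PS_eq z y hzy]
    have h3 := Finset.sum_union_inter (s₁ := PR (z : ℝ)) (s₂ := PS z y)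
      (f := fun p => hK K p / (p : ℝ))
    have h4 : 0 ≤ ∑ p ∈ PR (z : ℝ) ∩ PS z y, hK K p / (p : ℝ) :=
      Finset.sum_nonneg fun p _ => div_nonneg (hK_nonneg K p) (Nat.cast_nonneg p)
    linarith
  linarith

/-- the theorem of Mertens for the roots, upper bound -/
lemma sum_rho_up (f : ℤ[X]) (hf : Irreducible f) (hd : 0 < f.natDegree) : ∃ C : ℝ,
    ∀ z y : ℕ, z < y → 3 ≤ y →
    ∑ p ∈ PS z y, (rho f p : ℝ) / p ≤ Real.log (Real.log y) + C := by
  obtain ⟨C, hC0, hC⟩ := Pool.Agent.H474R2.GE.mertens_rho f hf hd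
  refine ⟨C, fun z y hzy hy => ?_⟩
  have h1 := (abs_le.1 (hC y (by exact_mod_cast hy))).2
  have h2 : ∑ p ∈ PS z y, (rho f p : ℝ) / p ≤ Pool.Agent.H474R2.PG.Sg (rho f) (y : ℝ) := by
    unfold Pool.Agent.H474R2.PG.Sg
    rw [PS_eq z y hzy]
    exact Finset.sum_le_sum_of_subset_of_nonneg subset_union_right fun p _ _ => by positivity
  linarith

/-- **S_UP02** -/
theorem s_UP02 : Pool.Agent.L7h19.FT.S_UP02 := by
  classical
  intro f κ c hf hd hfκ hns
  obtain ⟨M, hM, hsq⟩ := sum_inv_sq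
  obtain ⟨n, z₀, hz₀, hbn, -⟩ := bb_sum_eps f κ hf hd hfκ one_pos
  obtain ⟨K', iF', iN', z₁, hK'⟩ := quad2 f κ hf hd hns
  obtain ⟨C1, hC1⟩ := mertens_up K'
  obtain ⟨C3, hC3⟩ := sum_rho_up f hf hd
  refine ⟨max (2 * c + 2) (max z₀ z₁), fun z hz => ?_⟩
  have hzc : 2 * c + 2 ≤ z := (le_max_left _ _).trans hz
  have hz0 : z₀ ≤ z := ((le_max_left _ _).trans (le_max_right _ _)).trans hz
  have hz1 : z₁ ≤ z := ((le_max_right _ _).trans (le_max_right _ _)).trans hz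
  obtain ⟨C2, hC2⟩ := sum_rho_low f hf hd z
  obtain ⟨C4, hC4⟩ := mertens_low K' z
  refine ⟨max (C1 + C2) (C3 + C4) + 2 * (c * n * M), fun y hy => ?_⟩
  have hy3 : 3 ≤ y := by omega
  have h1 := hC1 z y hy hy3
  have h2 := hC2 y hy hy3
  have h1' := hC3 z y hy hy3
  have h2' := hC4 y hy hy3
  have h3 : ∑ p ∈ PS z y, bb f κ p * 1 / (p : ℝ) =
      ∑ p ∈ PS z y, hK K' p / (p : ℝ) - ∑ p ∈ PS z y, (rho f p : ℝ) / (p : ℝ) := by
    rw [← Finset.sum_sub_distrib]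
    refine Finset.sum_congr rfl fun p hp => ?_
    have hpp := PS_prime hp
    have hzp : z₁ < p := lt_of_le_of_lt hz1 (PS_lt hp)
    have h4 : bb f κ p = hK K' p - rho f p := by
      have h5 := hK' p hpp hzp
      have h6 : (Nat.card (𝓞 K' →+* ZMod p) : ℝ) = ((Nat.card (𝓞 K' →+* ZMod p) : ℤ) : ℝ) := by
        push_cast
        rfl
      unfold hK
      rw [h6, h5]
      unfold bb rho Jr
      push_cast
      rw [Finset.sum_add_distrib]
      simp
    rw [h4]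
    ring
  have hbn' : ∀ p ∈ PS z y, |bb f κ p| ≤ n :=
    fun p hp => hbn p (PS_prime hp) (lt_of_le_of_lt hz0 (PS_lt hp))
  have h4 := bw_le (f := f) (κ := κ) (c := c) (n := n) (z := z) (y := y) (u := fun _ => 1)
    (by norm_num : (0 : ℝ) < 1 / 2) le_rfl hzc hbn' (fun _ => by norm_num) (hsq _)
  have h4' := bw_ge (f := f) (κ := κ) (c := c) (n := n) (z := z) (y := y) (u := fun _ => 1)
    (by norm_num : (0 : ℝ) < 1 / 2) le_rfl hzc hbn' (fun _ => by norm_num) (hsq _)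
  rw [h3] at h4 h4'
  have h5 : ∑ p ∈ PS z y, bw f κ 1 c p = 2 * ∑ p ∈ PS z y, bw f κ (1 / 2) c p * 1 := by
    rw [Finset.mul_sum]
    refine Finset.sum_congr rfl fun p _ => ?_
    rw [bw_one]
    ring
  rw [h5]
  have hm1 := le_max_left (C1 + C2) (C3 + C4)
  have hm2 := le_max_right (C1 + C2) (C3 + C4)
  rw [abs_le]
  constructor <;> linarith

end Pool.Agent.L7h50.UP
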