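import Pool.Agent.L7h78.RP.StEp
import Pool.Agent.L7h80.RP.StQuad
import Pool.Agent.L7h50.SI.Main
import Pool.Agent.L7h19.RP.Stm5

/-! # StUp (project RP of helper19): upper bounds with a small multiple of `log r` -/

set_option autoImplicit false
set_option linter.unusedSectionVars false

open NumberField Finset Polynomial

namespace Pool.Agent.L7h50.UP

open Pool.Agent.W262.RK Pool.Agent.W655.RK Pool.Agent.L7h19.RP
open Pool.Agent.H474R2.PG (rho PR)
open Pool.Agent.L7h78.RP (hK hK_nonneg hK_le ch ch_abs PS_eq sum_PS_le logs Md upper mertens_up bb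
  bb_abs)

/-- the lower bound -/
lemma lower_eps (K : Type) [Field K] [NumberField K] {ε : ℝ} (hε : 0 < ε) : ∃ z₀ : ℕ, 2 ≤ z₀ ∧
    ∀ z : ℕ, z₀ ≤ z → ∃ C : ℝ, ∀ (t : Bool) (r y : ℕ), Md z r → z < y →
      -(ε * Real.log r) - C ≤ ∑ p ∈ PS z y, hK K p * ch t r p / (p : ℝ) := by
  obtain ⟨C, z₀, h⟩ := Pool.Agent.L7h50.SI.stSieg K 4 ε (by norm_num) hε
  refine ⟨max z₀ 2, le_max_right _ _, fun z hz => ?_⟩
  have hz1 := (le_max_left _ _).trans hz
  have hz2 := (le_max_right z₀ 2).trans hz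
  set n : ℕ := Module.finrank ℚ K with hn
  refine ⟨C + n * z, fun t r y hr hzy => ?_⟩
  let ψ : DirichletCharacter ℤ 4 := if t then ZMod.χ₄ else 1
  have h1 := h ψ r hr.one_lt hr.sq (fun p hp hpr => lt_of_le_of_lt hz1 (hr.pr p hp hpr)) y
    (by exact_mod_cast (by omega : 3 ≤ y))
  set g : ℕ → ℝ := fun p => (Nat.card (𝓞 K →+* ZMod p) : ℝ) *
      (((ψ (p : ZMod 4) : ℤ) : ℝ) * Jr (p : ℤ) r) with hg
  have hψ1 : ∀ p : ℕ, |(((ψ (p : ZMod 4) : ℤ) : ℝ) * Jr (p : ℤ) r)| ≤ 1 := by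
    intro p
    rw [abs_mul]
    refine mul_le_one₀ ?_ (abs_nonneg _) (Jr_abs _ _)
    cases t
    · have h2 : ψ = 1 := rfl
      rw [h2]
      by_cases hu : IsUnit ((p : ZMod 4))
      · rw [MulChar.one_apply hu]; simp
      · rw [MulChar.map_nonunit _ hu]; simp
    · have h2 : ψ = ZMod.χ₄ := rfl
      rw [h2]
      rcases ZMod.isQuadratic_χ₄ (p : ZMod 4) with h | h | h <;> rw [h] <;> norm_num
  have hgB : ∀ p, p.Prime → |(fun p => -g p) p| ≤ n := by
    intro p hp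
    simp only [hg]
    rw [abs_neg, abs_mul, Nat.abs_cast]
    calc _ ≤ (n : ℝ) * 1 := mul_le_mul (hK_le K hp) (hψ1 p) (abs_nonneg _) (Nat.cast_nonneg n)
      _ = n := mul_one _
  have h2 := sum_PS_le (f := fun p => -g p) (Nat.cast_nonneg n) hgB hzy
  have h3 : ∑ p ∈ PS z y, hK K p * ch t r p / (p : ℝ) = ∑ p ∈ PS z y, g p / (p : ℝ) := by
    refine sum_congr rfl fun p hp => ?_
    congr 1
    rw [hg]
    simp only
    unfold hK ch
    congr 1
    rw [mul_comm]
    congr 1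
    have hp2 : ¬ 2 ∣ p := by
      intro h2
      have h3 := (Nat.prime_dvd_prime_iff_eq Nat.prime_two (PS_prime hp)).1 h2
      have h4 := PS_lt hp
      omega
    cases t
    · have h2 : ψ = 1 := rfl
      rw [h2, MulChar.one_apply]
      · simp [x4]
      · rw [ZMod.isUnit_iff_coprime]
        have : Nat.Coprime p 2 := (Nat.coprime_primes (PS_prime hp) Nat.prime_two).2 (by
          rintro rfl
          exact hp2 dvd_rfl)
        exact Nat.Coprime.pow_right 2 this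
    · rfl
  rw [h3]
  have h5 : -(ε * Real.log r) - C ≤ ∑ p ∈ PR (y : ℝ), g p / (p : ℝ) := h1
  have e1 : ∑ p ∈ PS z y, -g p / (p : ℝ) = -∑ p ∈ PS z y, g p / (p : ℝ) := by
    rw [← Finset.sum_neg_distrib]
    exact Finset.sum_congr rfl fun p _ => neg_div _ _
  have e2 : ∑ p ∈ PR (y : ℝ), -g p / (p : ℝ) = -∑ p ∈ PR (y : ℝ), g p / (p : ℝ) := by
    rw [← Finset.sum_neg_distrib]
    exact Finset.sum_congr rfl fun p _ => neg_div _ _
  rw [e1, e2] at h2
  linarith

/-- `log x` is at most a small multiple of `x` -/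
lemma log_eps {δ x : ℝ} (hδ : 0 < δ) (hx : 0 < x) : Real.log x ≤ δ * x - Real.log δ := by
  have h1 := Real.log_le_sub_one_of_pos (mul_pos hδ hx)
  rw [Real.log_mul hδ.ne' hx.ne'] at h1
  linarith

/-- the sums of the twisted `b` over the primes -/
lemma bb_sum_eps (f κ : ℤ[X]) (hf : Irreducible f) (hd : 0 < f.natDegree)
    (hfκ : ¬ f ∣ κ) {ε : ℝ} (hε : 0 < ε) : ∃ (n : ℕ) (z₀ : ℕ), 2 ≤ z₀ ∧
    (∀ p : ℕ, p.Prime → z₀ < p → |bb f κ p| ≤ n) ∧
    ∀ z : ℕ, z₀ ≤ z → ∃ C : ℝ, ∀ (t : Bool) (r y : ℕ), Md z r → z < y →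
      ∑ p ∈ PS z y, bb f κ p * ch t r p / (p : ℝ) ≤ ε * Real.log r + C := by
  classical
  obtain ⟨K, iF, iN, z₁, hKr, hcase⟩ := Pool.Agent.L7h80.RP.stQuad f κ hf hd hfκ
  have hn : ∀ p : ℕ, p.Prime → z₁ < p → |bb f κ p| ≤ (Module.finrank ℚ K : ℕ) := by
    intro p hp hzp
    refine (bb_abs f κ p).trans ?_
    rw [← hKr p hp hzp]
    exact hK_le K hp
  -- `A log log r` is small
  have hll : ∀ A : ℝ, 0 ≤ A → ∃ C : ℝ, ∀ z r : ℕ, 2 ≤ z → Md z r →
      A * Real.log (Real.log r) ≤ ε / 2 * Real.log r + C := by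
    intro A hA
    refine ⟨-(A * Real.log (ε / (2 * (A + 1)))), fun z r hz hr => ?_⟩
    obtain ⟨hl1, -⟩ := logs (hr.three hz)
    have hδ : 0 < ε / (2 * (A + 1)) := by positivity
    have h1 := log_eps hδ (by linarith : 0 < Real.log r)
    have h2 := mul_le_mul_of_nonneg_left h1 hA
    have h3 : A * (ε / (2 * (A + 1)) * Real.log r) ≤ ε / 2 * Real.log r := by
      rw [← mul_assoc]
      refine mul_le_mul_of_nonneg_right ?_ (by linarith)
      rw [mul_div_assoc', div_le_div_iff₀ (by positivity) (by norm_num)]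
      nlinarith
    linarith
  rcases hcase with hsq | ⟨K', iF', iN', hK'⟩
  · -- the square case
    obtain ⟨A, z₂, hA, hz₂, h⟩ := upper K
    obtain ⟨C0, hC0⟩ := hll A hA
    refine ⟨Module.finrank ℚ K, max z₁ z₂, hz₂.trans (le_max_right _ _),
      fun p hp hzp => hn p hp ((le_max_left _ _).trans_lt hzp), fun z hz => ?_⟩
    obtain ⟨C, hC⟩ := h z ((le_max_right _ _).trans hz)
    have hz2 := hz₂.trans ((le_max_right _ _).trans hz)
    refine ⟨C0 + C, fun t r y hr hzy => ?_⟩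
    have h1 := hC t r y hr hzy
    have h2 : ∑ p ∈ PS z y, bb f κ p * ch t r p / (p : ℝ) =
        ∑ p ∈ PS z y, hK K p * ch t r p / (p : ℝ) := by
      refine Finset.sum_congr rfl fun p hp => ?_
      have hpp := PS_prime hp
      have hzp : z₁ < p := lt_of_le_of_lt ((le_max_left _ _).trans hz) (PS_lt hp)
      have h3 : bb f κ p = hK K p := by
        unfold bb hK
        rw [hKr p hpp hzp]
        unfold rho
        rw [Finset.sum_congr rfl (g := fun _ => (1 : ℝ))]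
        · simp
        · intro ν hν
          rw [mem_filter] at hν
          unfold Jr
          rw [hsq p hpp hzp ν hν.2, Int.cast_one]
      rw [h3]
    rw [h2]
    have h4 := hC0 z r hz2 hr
    have h5 : ε / 2 * Real.log r ≤ ε * Real.log r := by
      refine mul_le_mul_of_nonneg_right (by linarith) ?_
      obtain ⟨hl1, -⟩ := logs (hr.three hz2)
      linarith
    linarith
  · -- the quadratic extension
    obtain ⟨A, z₂, hA, hz₂, h⟩ := upper K'
    obtain ⟨C0, hC0⟩ := hll A hA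
    obtain ⟨z₃, hz₃, hlow⟩ := lower_eps K (half_pos hε)
    refine ⟨Module.finrank ℚ K, max z₁ (max z₂ z₃),
      hz₂.trans ((le_max_left _ _).trans (le_max_right _ _)),
      fun p hp hzp => hn p hp ((le_max_left _ _).trans_lt hzp), fun z hz => ?_⟩
    have hz1 : z₁ ≤ z := (le_max_left _ _).trans hz
    have hz2 : z₂ ≤ z := ((le_max_left _ _).trans (le_max_right _ _)).trans hz
    have hz3 : z₃ ≤ z := ((le_max_right _ _).trans (le_max_right _ _)).trans hz
    obtain ⟨C1, hC1⟩ := h z hz2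
    obtain ⟨C2, hC2⟩ := hlow z hz3
    refine ⟨C0 + C1 + C2, fun t r y hr hzy => ?_⟩
    have h1 := hC1 t r y hr hzy
    have h2 := hC2 t r y hr hzy
    have h4 := hC0 z r (hz₂.trans hz2) hr
    have h3 : ∑ p ∈ PS z y, bb f κ p * ch t r p / (p : ℝ) =
        ∑ p ∈ PS z y, hK K' p * ch t r p / (p : ℝ) -
          ∑ p ∈ PS z y, hK K p * ch t r p / (p : ℝ) := by
      rw [← Finset.sum_sub_distrib]
      refine Finset.sum_congr rfl fun p hp => ?_
      have hpp := PS_prime hp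
      have hzp : z₁ < p := lt_of_le_of_lt hz1 (PS_lt hp)
      have h4 : bb f κ p = hK K' p - hK K p := by
        have h5 := hK' p hpp hzp
        have h6 : (Nat.card (𝓞 K' →+* ZMod p) : ℝ) = ((Nat.card (𝓞 K' →+* ZMod p) : ℤ) : ℝ) := by
          push_cast
          rfl
        unfold hK
        rw [h6, h5, hKr p hpp hzp]
        unfold bb rho Jr
        push_cast
        rw [Finset.sum_add_distrib]
        simp
      rw [h4]
      ring
    rw [h3]
    linarith

/-- comparison of `w / (p - c)` and `w / p` -/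
lemma bw_le {f κ : ℤ[X]} {w : ℝ} {c n z y : ℕ} (hw : 0 < w) (hw2 : w ≤ 1 / 2)
    (hz : 2 * c + 2 ≤ z) (hb : ∀ p ∈ PS z y, |bb f κ p| ≤ n) {u : ℕ → ℝ}
    (hu : ∀ p, |u p| ≤ 1) {M : ℝ} (hM : ∑ p ∈ PS z y, 1 / (p : ℝ) ^ 2 ≤ M) :
    ∑ p ∈ PS z y, bw f κ w c p * u p ≤
      w * ∑ p ∈ PS z y, bb f κ p * u p / (p : ℝ) + c * n * M := by
  have hc0 : (0:ℝ) ≤ c := Nat.cast_nonneg c
  have hn0 : (0:ℝ) ≤ n := Nat.cast_nonneg n
  have hbc : ∀ p ∈ PS z y, |bb f κ p * u p| ≤ n := fun p hp => by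
    rw [abs_mul]
    calc _ ≤ (n : ℝ) * 1 := mul_le_mul (hb p hp) (hu p) (abs_nonneg _) hn0
      _ = n := mul_one _
  have hp3 : ∀ p ∈ PS z y, (2 * c + 3 : ℝ) ≤ p := fun p hp => by
    have := PS_lt hp
    exact_mod_cast (by omega : 2 * c + 3 ≤ p)
  have hterm : ∀ p ∈ PS z y, bw f κ w c p * u p ≤
      w * (bb f κ p * u p / p) + c * n * (1 / (p : ℝ) ^ 2) := by
    intro p hp
    have h1 := hp3 p hp
    have h2 : 0 < (p : ℝ) - c := by linarith
    have hp0 : (0:ℝ) < p := by linarith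
    have h4 := (abs_le.1 (hbc p hp)).2
    have h0 : bw f κ w c p * u p = w / ((p : ℝ) - c) * (bb f κ p * u p) := by
      unfold bw bb
      ring
    have h5 : w / ((p : ℝ) - c) * (bb f κ p * u p) =
        w * (bb f κ p * u p / p) +
          (w * c / (p * (p - c))) * (bb f κ p * u p) := by
      field_simp
      ring
    rw [h0, h5]
    have h6 : 0 ≤ w * c / (p * (p - c)) := by positivity
    have h7 : w * c / (p * (p - c)) ≤ c * (1 / (p : ℝ) ^ 2) := by
      rw [mul_one_div, div_le_div_iff₀ (by positivity) (by positivity)]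
      have h8 : w * p ≤ p - c := by nlinarith
      have h9 : 0 ≤ (c : ℝ) * p := by positivity
      nlinarith
    have h10 : (w * c / (p * (p - c))) * (bb f κ p * u p) ≤
        (w * c / (p * (p - c))) * n := mul_le_mul_of_nonneg_left h4 h6
    have h11 : (w * c / (p * (p - c))) * n ≤ (c * (1 / (p : ℝ) ^ 2)) * n :=
      mul_le_mul_of_nonneg_right h7 hn0
    linarith
  calc ∑ p ∈ PS z y, bw f κ w c p * u p ≤ ∑ p ∈ PS z y, (w * (bb f κ p * u p / p) +
        c * n * (1 / (p : ℝ) ^ 2)) := Finset.sum_le_sum hterm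
    _ = w * ∑ p ∈ PS z y, bb f κ p * u p / p + c * n * ∑ p ∈ PS z y, 1 / (p : ℝ) ^ 2 := by
        rw [Finset.sum_add_distrib, Finset.mul_sum, Finset.mul_sum]
    _ ≤ _ := by
        have := mul_le_mul_of_nonneg_left hM (by positivity : 0 ≤ (c : ℝ) * n)
        linarith

/-- **StUp** -/
theorem stUp : StUp := by
  intro f κ w ε c hf hd hfκ hw hw2 hε
  obtain ⟨M, hM, hsq⟩ := sum_inv_sq
  obtain ⟨n, z₀, hz₀, hbn, hbb⟩ := bb_sum_eps f κ hf hd hfκ hε
  refine ⟨max (2 * c + 2) z₀, fun z hz => ?_⟩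
  have hzc : 2 * c + 2 ≤ z := (le_max_left _ _).trans hz
  have hz0 : z₀ ≤ z := (le_max_right _ _).trans hz
  have hz2 : 2 ≤ z := by omega
  obtain ⟨C, hC⟩ := hbb z hz0
  refine ⟨w * C + c * n * M, fun y r t hy hr hrs hrp => ?_⟩
  have hMd : Md z r := ⟨hr, hrs, hrp⟩
  obtain ⟨hl1, -⟩ := logs (hMd.three hz2)
  have h1 := hC t r y hMd hy
  have h2 := bw_le (f := f) (κ := κ) (c := c) (n := n) (z := z) (y := y) (u := ch t r) hw hw2 hzc
    (fun p hp => hbn p (PS_prime hp) (lt_of_le_of_lt hz0 (PS_lt hp))) (ch_abs t r) (hsq _)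
  have h3 := mul_le_mul_of_nonneg_left h1 hw.le
  have h4 : w * (ε * Real.log r) ≤ ε * Real.log r := by
    have : 0 ≤ ε * Real.log r := mul_nonneg hε.le (by linarith)
    nlinarith
  have h5 : ∑ p ∈ PS z y, bw f κ w c p * (Jr p r * x4 t p) =
      ∑ p ∈ PS z y, bw f κ w c p * ch t r p := rfl
  rw [h5]
  linarith

end Pool.Agent.L7h50.UP
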