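import Pool.Agent.L7h50.UP.Up
import Pool.Agent.H474R2.GE.FA

/-! # StUp0 (project RP of helper19): the trivial modulus, `κ(θ)` not a square -/

set_option autoImplicit false
set_option linter.unusedSectionVars false

open NumberField Finset Polynomial

namespace Pool.Agent.L7h50.UP

open Pool.Agent.W262.RK Pool.Agent.W655.RK Pool.Agent.L7h19.RP
open Pool.Agent.H474R2.PG (rho PR)
open Pool.Agent.L7h78.RP (hK hK_nonneg hK_le ch ch_abs PS_eq sum_PS_le logs Md upper mertens_up bb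
  bb_abs)
open Pool.Agent.L7h80.RP (closure_adjoinRoot cofin_of rat_den homEquiv homEquivInt eval_zmod
  sum_roots map_injective_int map_injective_monic card_sq card_homs Cofin)

/-- the second alternative of `StQuad`, if `κ(θ)` is not a square (adapted from `stQuad` of
helper80) -/
theorem quad2 (f κ : ℤ[X]) (hf : Irreducible f) (hd : 0 < f.natDegree)
    (hnsq : ¬ IsSquare (AdjoinRoot.mk (f.map (Int.castRingHom ℚ)) (κ.map (Int.castRingHom ℚ)))) :
    ∃ (K' : Type) (_ : Field K') (_ : NumberField K') (z₀ : ℕ), ∀ p : ℕ, p.Prime → z₀ < p →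
      (Nat.card (𝓞 K' →+* ZMod p) : ℤ) =
        ∑ ν ∈ (range p).filter (fun ν : ℕ => (p : ℤ) ∣ f.eval (ν : ℤ)),
          (1 + jacobiSym (κ.eval (ν : ℤ)) p) := by
  classical
  have hprim : f.IsPrimitive := hf.isPrimitive hd.ne'
  have hF : Irreducible (f.map (Int.castRingHom ℚ)) :=
    (IsPrimitive.Int.irreducible_iff_irreducible_map_cast hprim).1 hf
  have hfact : Fact (Irreducible (f.map (Int.castRingHom ℚ))) := ⟨hF⟩
  set K : Type := AdjoinRoot (f.map (Int.castRingHom ℚ)) with hK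
  set ι : AdjoinRoot f →+* K :=
    AdjoinRoot.map (Int.castRingHom ℚ) f (f.map (Int.castRingHom ℚ)) dvd_rfl with hι
  have hinj : Function.Injective ι := map_injective_int hprim
  have hcof : Cofin ι := by
    refine cofin_of ι (AdjoinRoot.of (f.map (Int.castRingHom ℚ)))
      (AdjoinRoot.root (f.map (Int.castRingHom ℚ))) (fun c => rat_den ι _ c)
      ⟨AdjoinRoot.root f, AdjoinRoot.map_root _ _ _ _⟩ ?_
    intro x
    obtain ⟨q, rfl⟩ := AdjoinRoot.mk_surjective x
    refine ⟨q, ?_⟩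
    rw [← AdjoinRoot.algebraMap_eq, ← aeval_def, AdjoinRoot.aeval_eq]
  have hgen : Subring.closure ((insert (AdjoinRoot.root f)
      ((∅ : Finset ℤ).image (AdjoinRoot.of f)) : Finset (AdjoinRoot f)) :
        Set (AdjoinRoot f)) = ⊤ := by
    apply closure_adjoinRoot
    rw [eq_top_iff]
    intro n _
    exact intCast_mem _ n
  set c : K := ι (AdjoinRoot.mk f κ) with hc
  have hcv : c = AdjoinRoot.mk (f.map (Int.castRingHom ℚ)) (κ.map (Int.castRingHom ℚ)) := by
    rw [hc, hι, AdjoinRoot.map, AdjoinRoot.lift_mk, ← eval₂_map, ← AdjoinRoot.algebraMap_eq,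
      ← aeval_def, AdjoinRoot.aeval_eq]
  have hsq : ¬ IsSquare c := by
    rw [hcv]
    exact hnsq
  set m : K[X] := X ^ 2 - C c with hm
  have hmi : Irreducible m := by
    apply X_pow_sub_C_irreducible_of_prime Nat.prime_two
    intro b hb
    exact hsq ⟨b, by rw [← hb, sq]⟩
  have hmf : Fact (Irreducible m) := ⟨hmi⟩
  have hmm : m.Monic := monic_X_pow_sub_C _ two_ne_zero
  set K' : Type := AdjoinRoot m with hK'
  have hfin : Module.Finite K K' := hmm.finite_adjoinRoot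
  have hnf : NumberField K' := NumberField.of_module_finite K K'
  set m2 : (AdjoinRoot f)[X] := X ^ 2 - C (AdjoinRoot.mk f κ) with hm2
  have hm2m : m2.Monic := monic_X_pow_sub_C _ two_ne_zero
  have hmap : m2.map ι = m := by
    rw [hm2, hm, Polynomial.map_sub, Polynomial.map_pow, Polynomial.map_X, Polynomial.map_C]
  set ι2 : AdjoinRoot m2 →+* K' := AdjoinRoot.map ι m2 m hmap.symm.dvd with hι2
  have hinj2 : Function.Injective ι2 := map_injective_monic ι hinj m2 hm2m m hmap _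
  have hcof2 : Cofin ι2 := by
    refine cofin_of ι2 (AdjoinRoot.of m) (AdjoinRoot.root m) (fun x => ?_)
      ⟨AdjoinRoot.root m2, AdjoinRoot.map_root _ _ _ _⟩ ?_
    · obtain ⟨n, hn, a, ha⟩ := hcof x
      refine ⟨n, hn, AdjoinRoot.of m2 a, ?_⟩
      have h1 : ι2 (AdjoinRoot.of m2 a) = AdjoinRoot.of m (ι a) := by
        rw [hι2, AdjoinRoot.map_of]
      rw [h1, ← ha, map_mul, map_intCast]
    · intro x
      obtain ⟨q, rfl⟩ := AdjoinRoot.mk_surjective x
      refine ⟨q, ?_⟩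
      rw [← AdjoinRoot.algebraMap_eq, ← aeval_def, AdjoinRoot.aeval_eq]
  obtain ⟨B2, hB2⟩ := card_homs ι2 hinj2 hcof2 _ (closure_adjoinRoot m2 _ hgen)
  refine ⟨K', inferInstance, hnf, B2 + 2, fun p hp hpB => ?_⟩
  have : Fact p.Prime := ⟨hp⟩
  rw [hB2 p hp (by omega), Nat.card_congr (homEquiv m2 (ZMod p))]
  have : Fintype {y : ZMod p // f.eval₂ (Int.castRingHom (ZMod p)) y = 0} :=
    Fintype.ofFinite _
  have : Fintype (AdjoinRoot f →+* ZMod p) :=
    Fintype.ofEquiv _ (homEquivInt f (ZMod p)).symm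
  rw [Nat.card_sigma, ← Equiv.sum_comp (homEquivInt f (ZMod p)).symm]
  push_cast
  refine (sum_roots f p (fun ν => 1 + jacobiSym (κ.eval ν) p) _ ?_).symm
  intro y a hay
  have h1 : ∀ z : ZMod p, m2.eval₂ ((homEquivInt f (ZMod p)).symm y) z = 0 ↔
      z ^ 2 = ((κ.eval a : ℤ) : ZMod p) := by
    intro z
    have h2 : (homEquivInt f (ZMod p)).symm y (AdjoinRoot.mk f κ) =
        ((κ.eval a : ℤ) : ZMod p) := by
      show AdjoinRoot.lift (Int.castRingHom (ZMod p)) y.1 y.2 (AdjoinRoot.mk f κ) = _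
      rw [AdjoinRoot.lift_mk, ← hay, eval_zmod]
    rw [hm2, eval₂_sub, eval₂_pow, eval₂_X, eval₂_C, h2, sub_eq_zero]
  rw [← card_sq p (by omega)]
  congr 1
  exact Nat.card_congr (Equiv.subtypeEquivRight fun z => (h1 z).symm)

/-- the theorem of Mertens for the roots, lower bound -/
lemma sum_rho_low (f : ℤ[X]) (hf : Irreducible f) (hd : 0 < f.natDegree) (z : ℕ) : ∃ C : ℝ,
    ∀ y : ℕ, z < y → 3 ≤ y →
    Real.log (Real.log y) - C ≤ ∑ p ∈ PS z y, (rho f p : ℝ) / p := by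
  obtain ⟨C, hC0, hC⟩ := Pool.Agent.H474R2.GE.mertens_rho f hf hd
  refine ⟨C + ∑ p ∈ PR (z : ℝ), (rho f p : ℝ) / p, fun y hzy hy => ?_⟩
  have h1 := (abs_le.1 (hC y (by exact_mod_cast hy))).1
  have hdisj : Disjoint (PR (z : ℝ)) (PS z y) := by
    unfold PR PS
    rw [Nat.floor_natCast, Finset.disjoint_left]
    intro p h1 h2
    rw [mem_filter, mem_Icc] at h1
    rw [mem_filter, mem_Ioc] at h2
    omega
  have h2 : Pool.Agent.H474R2.PG.Sg (rho f) (y : ℝ) =
      ∑ p ∈ PR (z : ℝ), (rho f p : ℝ) / p + ∑ p ∈ PS z y, (rho f p : ℝ) / p := by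
    unfold Pool.Agent.H474R2.PG.Sg
    rw [PS_eq z y hzy, sum_union hdisj]
  rw [h2] at h1
  linarith

/-- **StUp0** -/
theorem stUp0 : StUp0 := by
  classical
  intro f κ w c hf hd hfκ hw hw2 hns
  obtain ⟨M, hM, hsq⟩ := sum_inv_sq
  obtain ⟨n, z₀, hz₀, hbn, -⟩ := bb_sum_eps f κ hf hd hfκ one_pos
  obtain ⟨K', iF', iN', z₁, hK'⟩ := quad2 f κ hf hd hns
  obtain ⟨C1, hC1⟩ := mertens_up K'
  refine ⟨max (2 * c + 2) (max z₀ z₁), fun z hz => ?_⟩
  have hzc : 2 * c + 2 ≤ z := (le_max_left _ _).trans hz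
  have hz0 : z₀ ≤ z := ((le_max_left _ _).trans (le_max_right _ _)).trans hz
  have hz1 : z₁ ≤ z := ((le_max_right _ _).trans (le_max_right _ _)).trans hz
  obtain ⟨C2, hC2⟩ := sum_rho_low f hf hd z
  refine ⟨w * (C1 + C2) + c * n * M, fun y hy => ?_⟩
  have hy3 : 3 ≤ y := by omega
  have h1 := hC1 z y hy hy3
  have h2 := hC2 y hy hy3
  have h3 : ∑ p ∈ PS z y, bb f κ p * 1 / (p : ℝ) =
      ∑ p ∈ PS z y, hK K' p / (p : ℝ) - ∑ p ∈ PS z y, (rho f p : ℝ) / (p : ℝ) := by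
    rw [← Finset.sum_sub_distrib]
    refine Finset.sum_congr rfl fun p hp => ?_
    have hpp := PS_prime hp
    have hzp : z₁ < p := lt_of_le_of_lt hz1 (PS_lt hp)
    have h4 : bb f κ p = hK K' p - rho f p := by
      have h5 := hK' p hpp hzp
      have h6 : (Nat.card (𝓞 K' →+* ZMod p) : ℝ) = ((Nat.card (𝓞 K' →+* ZMod p) : ℤ) : ℝ) := by
        push_cast
        rfl
      unfold hK
      rw [h6, h5]
      unfold bb rho Jr
      push_cast
      rw [Finset.sum_add_distrib]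
      simp
    rw [h4]
    ring
  have h4 := bw_le (f := f) (κ := κ) (c := c) (n := n) (z := z) (y := y) (u := fun _ => 1) hw hw2
    hzc (fun p hp => hbn p (PS_prime hp) (lt_of_le_of_lt hz0 (PS_lt hp)))
    (fun _ => by norm_num) (hsq _)
  rw [h3] at h4
  have h5 : ∑ p ∈ PS z y, bw f κ w c p = ∑ p ∈ PS z y, bw f κ w c p * 1 := by
    simp only [mul_one]
  rw [h5]
  have h6 : w * (∑ p ∈ PS z y, hK K' p / (p : ℝ) - ∑ p ∈ PS z y, (rho f p : ℝ) / (p : ℝ)) ≤
      w * (C1 + C2) := mul_le_mul_of_nonneg_left (by linarith) hw.le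
  linarith

end Pool.Agent.L7h50.UP
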